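import Mathlib

/-!
MP_82cbb9_al, module OR-8: `S`-units of a number field are finitely generated.
-/

set_option autoImplicit false

namespace Pool.Agent.CP

open IsDedekindDomain HeightOneSpectrum NumberField

section OR8

variable (K : Type*) [Field K] [NumberField K]

/-- the `s`-units -/
def OR8_U (s : ℕ) : Subgroup Kˣ where
  carrier := {x | ∃ j : ℕ, IsIntegral ℤ ((s : K) ^ j * x) ∧
    IsIntegral ℤ ((s : K) ^ j * (x⁻¹ : Kˣ))}
  one_mem' := ⟨0, by simpa using isIntegral_one, by simpa using isIntegral_one⟩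
  mul_mem' := by
    rintro x y ⟨i, hx, hx'⟩ ⟨j, hy, hy'⟩
    refine ⟨i + j, ?_, ?_⟩
    · have h := hx.mul hy
      have e : (s : K) ^ (i + j) * ((x * y : Kˣ) : K) = (s : K) ^ i * x * ((s : K) ^ j * y) := by
        rw [Units.val_mul, pow_add]; ring
      rw [e]; exact h
    · have h := hx'.mul hy'
      have e : (s : K) ^ (i + j) * (((x * y)⁻¹ : Kˣ) : K)
          = (s : K) ^ i * (x⁻¹ : Kˣ) * ((s : K) ^ j * (y⁻¹ : Kˣ)) := by
        rw [mul_inv, Units.val_mul, pow_add]; ring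
      rw [e]; exact h
  inv_mem' := by
    rintro x ⟨i, hx, hx'⟩
    exact ⟨i, hx', by rwa [inv_inv]⟩

theorem OR8_val_le (s j : ℕ) (v : HeightOneSpectrum (𝓞 K))
    (hv : ¬ v.asIdeal ∣ Ideal.span {(s : 𝓞 K)}) {x : K} (hx : IsIntegral ℤ ((s : K) ^ j * x)) :
    v.valuation K x ≤ 1 := by
  have h1 : v.valuation K (s : K) = 1 := by
    have := (v.valuation_eq_one_iff_notMem (K := K) (r := (s : 𝓞 K))).2 (by
      intro h
      exact hv (by rw [Ideal.dvd_span_singleton]; exact h))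
    simpa using this
  have h2 : v.valuation K ((s : K) ^ j * x) ≤ 1 := by
    obtain ⟨y, hy⟩ : ∃ y : 𝓞 K, (algebraMap (𝓞 K) K) y = (s : K) ^ j * x := ⟨⟨_, hx⟩, rfl⟩
    rw [← hy]
    exact v.valuation_le_one y
  rwa [map_mul, map_pow, h1, one_pow, one_mul] at h2

end OR8

/-- OR-8 -/
theorem s_units_fg (K : Type*) [Field K] [NumberField K] (s : ℕ) (hs : 0 < s) :
    ∃ U : Subgroup Kˣ, U.FG ∧ ∀ x : Kˣ, x ∈ U ↔
      ∃ j : ℕ, IsIntegral ℤ ((s : K) ^ j * x) ∧ IsIntegral ℤ ((s : K) ^ j * (x⁻¹ : Kˣ)) := by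
  refine ⟨OR8_U K s, ?_, fun x => Iff.rfl⟩
  have hs0 : (s : 𝓞 K) ≠ 0 := Nat.cast_ne_zero.2 hs.ne'
  have hfin : {v : HeightOneSpectrum (𝓞 K) | v.asIdeal ∣ Ideal.span {(s : 𝓞 K)}}.Finite :=
    Ideal.finite_factors (by
      rw [ne_eq, Ideal.zero_eq_bot, Ideal.span_singleton_eq_bot]; exact hs0)
  let S := {v : HeightOneSpectrum (𝓞 K) // v.asIdeal ∣ Ideal.span {(s : 𝓞 K)}}
  have : Finite S := hfin
  let f : Additive Kˣ →ₗ[ℤ] (S → ℤ) :=
    LinearMap.pi fun v => (MonoidHom.toAdditiveLeft (v.1.valuationOfNeZero (K := K))).toIntLinearMap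
  let g : Additive (𝓞 K)ˣ →ₗ[ℤ] Additive Kˣ :=
    (MonoidHom.toAdditive (Units.map (algebraMap (𝓞 K) K : 𝓞 K →* K))).toIntLinearMap
  have hf : ∀ x : Kˣ, f (Additive.ofMul x) = 0 ↔ ∀ v : S, v.1.valuation K (x : K) = 1 := by
    intro x
    rw [funext_iff]
    refine forall_congr' fun v => ?_
    have h1 : f (Additive.ofMul x) v = Multiplicative.toAdd (v.1.valuationOfNeZero (K := K) x) :=
      rfl
    rw [h1, ← HeightOneSpectrum.valuationOfNeZero_eq]
    constructor
    · intro h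
      have h2 : v.1.valuationOfNeZero (K := K) x = 1 := h
      rw [h2]; rfl
    · intro h
      have h2 : v.1.valuationOfNeZero (K := K) x = 1 := by
        rw [← WithZero.coe_one] at h
        exact WithZero.coe_inj.1 h
      rw [h2]; rfl
  have hconv : (AddSubgroup.toIntSubmodule (Subgroup.toAddSubgroup (OR8_U K s))).FG →
      (OR8_U K s).FG := by
    intro h
    rw [Submodule.fg_iff_addSubgroup_fg, AddSubgroup.toIntSubmodule_toAddSubgroup] at h
    exact (Subgroup.fg_iff_add_fg _).2 h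
  apply hconv
  refine Submodule.fg_of_fg_map_of_fg_inf_ker f (IsNoetherian.noetherian _) ?_
  have hEq : AddSubgroup.toIntSubmodule (Subgroup.toAddSubgroup (OR8_U K s)) ⊓ LinearMap.ker f
      = (⊤ : Submodule ℤ (Additive (𝓞 K)ˣ)).map g := by
    ext y
    obtain ⟨x, rfl⟩ : ∃ x : Kˣ, Additive.ofMul x = y := ⟨y.toMul, rfl⟩
    rw [Submodule.mem_inf, LinearMap.mem_ker, hf]
    constructor
    · rintro ⟨hx, hx0⟩
      obtain ⟨j, h1, h2⟩ : x ∈ OR8_U K s := hx
      have key : ∀ z : Kˣ, (∀ v : S, v.1.valuation K (z : K) = 1) →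
          IsIntegral ℤ ((s : K) ^ j * z) → ∃ y : 𝓞 K, algebraMap (𝓞 K) K y = z := by
        intro z hz hz'
        have := HeightOneSpectrum.mem_integers_of_valuation_le_one (R := 𝓞 K) K (z : K) (by
          intro v
          by_cases hv : v.asIdeal ∣ Ideal.span {(s : 𝓞 K)}
          · exact (hz ⟨v, hv⟩).le
          · exact OR8_val_le K s j v hv hz')
        exact this
      obtain ⟨a, ha⟩ := key x hx0 h1
      obtain ⟨b, hb⟩ := key x⁻¹ (by
        intro v
        rw [Units.val_inv_eq_inv_val, map_inv₀, hx0 v, inv_one]) h2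
      have hab : a * b = 1 := by
        apply FaithfulSMul.algebraMap_injective (𝓞 K) K
        rw [map_mul, ha, hb, map_one, ← Units.val_mul, mul_inv_cancel, Units.val_one]
      refine ⟨Additive.ofMul ⟨a, b, hab, by rw [mul_comm]; exact hab⟩, trivial, ?_⟩
      apply Additive.toMul.injective
      exact Units.ext ha
    · rintro ⟨y, -, hy⟩
      obtain ⟨u, rfl⟩ : ∃ u : (𝓞 K)ˣ, Additive.ofMul u = y := ⟨y.toMul, rfl⟩
      have hy' : Units.map (algebraMap (𝓞 K) K : 𝓞 K →* K) u = x := hy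
      subst hy'
      refine ⟨⟨0, ?_, ?_⟩, fun v => ?_⟩
      · rw [pow_zero, one_mul]; exact (u : 𝓞 K).2
      · rw [pow_zero, one_mul]
        exact ((u⁻¹ : (𝓞 K)ˣ) : 𝓞 K).2
      · rw [← HeightOneSpectrum.valuationOfNeZero_eq, HeightOneSpectrum.valuation_of_unit_eq]; rfl
  rw [hEq]
  exact Submodule.FG.map g (Module.finite_def.1 inferInstance)

end Pool.Agent.CP
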